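import Mathlib
import Pool.Agent.H922R2.OPC.Stubs
import Pool.Agent.Helper363.OPC_COP

set_option autoImplicit false

open MvPolynomial Pool.Agent.H922R2.OPC

namespace Pool.Agent.Helper363.OPC_POS

open Pool.Agent.Helper363.OPC_COP

variable {k : Type} [Field k]

lemma prod_Ge (hMUL : S_MUL) (A : Type) [CommRing A] (r : ℕ → LaurentSeries A) (m : ℕ)
    (hr : ∀ i, Ge 1 (r i)) : Ge (m : ℤ) (∏ i ∈ Finset.range m, r i) := by
  induction m with
  | zero =>
    intro i hi
    rw [Finset.prod_range_zero]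
    have h1 : (1 : LaurentSeries A) = HahnSeries.single 0 1 := rfl
    rw [h1, HahnSeries.coeff_single_of_ne (by
      intro h
      rw [h] at hi
      simp at hi)]
  | succ m ih =>
    rw [Finset.prod_range_succ]
    have h := (hMUL A _ _ _ _ ih (hr m)).1
    intro i hi
    exact h i (by push_cast at hi; omega)

lemma npos (n : ℕ) (g : B k) (i : ℤ) (hi : 0 < i) :
    (aeval ![tp (-(n : ℤ)), lam] g : L k).coeff i = 0 := by
  induction g using MvPolynomial.induction_on generalizing i with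
  | C a =>
    rw [show aeval ![tp (-(n : ℤ)), lam] (C a : B k) = algebraMap k (L k) a from
      AlgHom.commutes _ a, algL]
    simp only [HahnSeries.C_apply]
    rw [HahnSeries.coeff_single_of_ne (by omega)]
  | add p q hp hq =>
    rw [map_add, HahnSeries.coeff_add, hp i hi, hq i hi, add_zero]
  | mul_X p j hp =>
    rw [map_mul, aeval_X]
    fin_cases j
    · show (aeval ![tp (-(n : ℤ)), lam] p * tp (-(n : ℤ)) : L k).coeff i = 0
      unfold tp at *
      have h1 : i = (i + n) + (-(n : ℤ)) := by ring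
      rw [h1, HahnSeries.coeff_mul_single_add, hp (i + n) (by omega), zero_mul]
    · show (aeval ![tp (-(n : ℤ)), lam] p * lam : L k).coeff i = 0
      unfold lam at *
      have h1 : i = i + 0 := by ring
      rw [h1, HahnSeries.coeff_mul_single_add, hp i hi, zero_mul]

lemma ev_comp (n : ℕ) (φ : L k) (f g : B k) (hf : ev n φ f = lam) :
    ev n φ (aeval ![X 0, f] g) = aeval ![tp (-(n : ℤ)), lam] g := by
  have h1 : (ev n φ).comp (aeval ![X 0, f]) = aeval ![tp (-(n : ℤ)), lam] := by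
    apply MvPolynomial.algHom_ext
    intro i
    fin_cases i
    · show ev n φ (aeval ![X 0, f] (X 0)) = aeval ![tp (-(n : ℤ)), lam] (X 0)
      rw [aeval_X, aeval_X]
      unfold ev
      simp
    · show ev n φ (aeval ![X 0, f] (X 1)) = aeval ![tp (-(n : ℤ)), lam] (X 1)
      rw [aeval_X, aeval_X]
      exact hf
  exact DFunLike.congr_fun h1 g

lemma rot_coeff (c : k) (x : L k) (i : ℤ) :
    (rot c x).coeff i = Polynomial.C (c ^ i) * x.coeff i := rfl

theorem pos (k : Type) [Field k] [IsAlgClosed k] [CharZero k] (hMON : S_MON k) : S_POS k := by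
  intro hMUL hROT hEVF hINJ hCHR n f φ ζ hOP h hh
  have hn : 0 < n := hOP.1
  have hζ : ζ ≠ 0 := hOP.2.1.ne_zero (by omega)
  have hinj := hINJ hEVF hMON n f φ ζ hOP
  obtain ⟨g, w, hgw, hprod⟩ := rel n hn f φ ζ hinj h (hCHR hROT hEVF hMON n f φ ζ hOP h)
  have h1 : Ge (n : ℤ) (∏ i ∈ Finset.range n, (- rot (ζ ^ i) (ev n φ h))) := by
    apply prod_Ge hMUL
    intro i j hj
    rw [HahnSeries.coeff_neg, rot_coeff, hh j hj, mul_zero, neg_zero]
  have h2 : ∏ i ∈ Finset.range n, (- rot (ζ ^ i) (ev n φ h)) = 0 := by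
    ext j : 2
    by_cases hj : 0 < j
    · rw [← hprod, ev_comp n φ f g (hEVF n f φ ζ hOP), npos n g j hj]
      rfl
    · exact h1 j (by omega)
  obtain ⟨i, -, hi⟩ := Finset.prod_eq_zero_iff.mp h2
  have h3 : ev n φ h = 0 := by
    ext j : 2
    have h4 := congrArg (fun y : L k => y.coeff j) hi
    beta_reduce at h4
    rw [HahnSeries.coeff_neg, rot_coeff] at h4
    have h5 : Polynomial.C ((ζ ^ i) ^ j) * (ev n φ h).coeff j = 0 := by
      have h6 : (0 : L k).coeff j = 0 := rfl
      rw [h6] at h4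
      exact neg_eq_zero.mp h4
    rcases mul_eq_zero.mp h5 with h6 | h6
    · exact absurd (Polynomial.C_eq_zero.mp h6) (zpow_ne_zero j (pow_ne_zero i hζ))
    · exact h6
  exact hinj (h3.trans (map_zero (ev n φ)).symm)

theorem spp (k : Type) [Field k] [IsAlgClosed k] [CharZero k] (hMON : S_MON k) : S_SPP k := by
  intro hMUL hSPR hROT hEVF hINJ hCHR n f φ ζ hOP μ h hh
  obtain ⟨R, hR⟩ := hSPR μ
  have hn : 0 < n := hOP.1
  have hζ : ζ ≠ 0 := hOP.2.1.ne_zero (by omega)
  have hinj := hINJ hEVF hMON n f φ ζ hOP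
  obtain ⟨g, w, hgw, hprod⟩ := rel n hn f φ ζ hinj h (hCHR hROT hEVF hMON n f φ ζ hOP h)
  have hsc : ∀ (x : L k) (j : ℤ), (sp μ x).coeff j = Polynomial.eval μ (x.coeff j) := by
    intro x j
    unfold sp
    rw [HahnSeries.map_coeff]
    rfl
  have h1 : Ge (n : ℤ) (∏ i ∈ Finset.range n, R (- rot (ζ ^ i) (ev n φ h))) := by
    apply prod_Ge hMUL
    intro i j hj
    have h4 := hh j hj
    rw [hsc] at h4
    rw [hR, hsc, HahnSeries.coeff_neg, rot_coeff, Polynomial.eval_neg, Polynomial.eval_mul, h4,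
      mul_zero, neg_zero]
  have h2 : ∏ i ∈ Finset.range n, R (- rot (ζ ^ i) (ev n φ h)) = 0 := by
    ext j
    by_cases hj : 0 < j
    · rw [← map_prod, ← hprod, hR, hsc, ev_comp n φ f g (hEVF n f φ ζ hOP), npos n g j hj,
        Polynomial.eval_zero]
      rfl
    · exact h1 j (by omega)
  obtain ⟨i, -, hi⟩ := Finset.prod_eq_zero_iff.mp h2
  by_contra hcon
  rw [map_neg, neg_eq_zero, hR] at hi
  exact sp_rot_ne μ _ (pow_ne_zero i hζ) _ hcon hi

end Pool.Agent.Helper363.OPC_POS
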